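import Pool.Agent.L7h56.OS.Mat

/-!
# The Pfaffian identity equivalent to the enumeration of odd-order OSASMs

Let `c a b` be the coefficient of `x ^ a * y ^ b` in `(y - x) / ((1 - x y) (1 - x - y))`. We prove
that the two Pfaffians of order `2 n + 2` with entries `c a b` (`a < b ≤ 2 n`) and last columns
`(-1) ^ a` and `((-1) ^ a + 2 ^ a) / 2` coincide, for all `n`.

Idea. Let `C` be the skew-symmetric matrix `(c a b)`, `0 ≤ a, b ≤ 2 n`, viewed as a bilinear form on
the polynomials of degree at most `2 n` in a variable `X` (`X = 1 / x`). The involution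
`τ : X ↦ 1 - X` reverses the sign of the form, because it exchanges the two factors of the
denominator, and it takes the functional `p ↦ p (t)` to `p ↦ p (1 - t)`. Comparing
`Pf (T M Tᵗ) = det T * Pf M` with the sign of `Pf (-M)` shows that the last columns `t ^ a` and
`(1 - t) ^ a` give the same Pfaffian; with `t = -1` this is the identity.
-/

set_option autoImplicit false

namespace Pool.Agent.Results.MP_d12cfa_co.PfaffianIdentity

/-- the formal power series `(y - x) / ((1 - x y) (1 - x - y))` over the rationals; `x` is the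
variable `0` and `y` the variable `1` -/
noncomputable def gen : MvPowerSeries (Fin 2) ℚ :=
  (MvPowerSeries.X 1 - MvPowerSeries.X 0) *
    ((1 - MvPowerSeries.X 0 * MvPowerSeries.X 1) *
      (1 - MvPowerSeries.X 0 - MvPowerSeries.X 1))⁻¹

/-- the coefficient of `x ^ a * y ^ b` in `gen` -/
noncomputable def c (a b : ℕ) : ℚ :=
  MvPowerSeries.coeff (Finsupp.single 0 a + Finsupp.single 1 b) gen

/-- the skew-symmetric `N × N` matrix with the entries `f a b` for `a < b` -/
def skewMatrix (N : ℕ) (f : ℕ → ℕ → ℚ) : Matrix (Fin N) (Fin N) ℚ := fun a b =>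
  if a < b then f a b else if b < a then - f b a else 0

/-- the Pfaffian of a skew-symmetric matrix, by expansion along the first row:
`Pf A = ∑ j, (-1) ^ j * A 0 (j + 1) * Pf (A without the rows and columns 0 and j + 1)` -/
def pf : (N : ℕ) → Matrix (Fin N) (Fin N) ℚ → ℚ
  | 0, _ => 1
  | 1, _ => 0
  | (N + 2), A => ∑ j : Fin (N + 1), (-1) ^ (j : ℕ) * A 0 j.succ *
      pf N (A.submatrix (fun k => (j.succAbove k).succ) (fun k => (j.succAbove k).succ))

/-- the first array: `c a b` for `a < b ≤ 2 n`, and `(-1) ^ a` in the last column `b = 2 n + 1` -/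
noncomputable def first (n a b : ℕ) : ℚ := if b ≤ 2 * n then c a b else (-1) ^ a

/-- the second array: `c a b` for `a < b ≤ 2 n`, and `((-1) ^ a + 2 ^ a) / 2` in the last column
`b = 2 n + 1` -/
noncomputable def second (n a b : ℕ) : ℚ :=
  if b ≤ 2 * n then c a b else ((-1) ^ a + 2 ^ a) / 2

theorem pf_eq : ∀ (N : ℕ) (A : Matrix (Fin N) (Fin N) ℚ), pf N A = Pool.Agent.Helper929.pf N A := by
  intro N
  induction N using Nat.strong_induction_on with
  | _ N ih =>
    intro A
    rcases N with _ | _ | N
    · rfl
    · rfl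
    · rw [pf, Pool.Agent.Helper929.pf]
      apply Finset.sum_congr rfl
      intro j _
      rw [ih N (by omega)]

/-- For all `n` the two Pfaffians of order `2 n + 2` coincide. -/
theorem result (n : ℕ) :
    pf (2 * n + 2) (skewMatrix (2 * n + 2) (first n)) =
      pf (2 * n + 2) (skewMatrix (2 * n + 2) (second n)) := by
  rw [pf_eq, pf_eq]
  exact Pool.Agent.L7h56.OS.pf_id n

end Pool.Agent.Results.MP_d12cfa_co.PfaffianIdentity
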